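import Pool.Agent.H14.RG.Targets

/-! A smooth function on a neighbourhood of a point is extended (row A_CUT of reg). -/

set_option autoImplicit false

namespace Pool.Agent.H95.RG

open MeasureTheory Metric Set Filter Topology Pool.Agent.H87.SN Pool.Agent.H14.RG
open scoped ContDiff RealInnerProductSpace

theorem pf_CUT : T_CUT := by
  intro m G _ _ U F hU hF p hp
  obtain ⟨s, hs, hsU⟩ := Metric.isOpen_iff.1 hU p hp
  obtain ⟨r, hr0, hr⟩ : ∃ r : ℝ, 0 < r ∧ 2 * r < s := ⟨s / 3, by linarith, by linarith⟩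
  let χ : ContDiffBump p := ⟨r, 2 * r, hr0, by linarith⟩
  have hcl : closedBall p (2 * r) ⊆ U := fun x hx => hsU (lt_of_le_of_lt hx hr)
  have hts : tsupport (χ : E m → ℝ) ⊆ U := by
    rw [χ.tsupport_eq]
    exact hcl
  refine ⟨ball p r, fun q => χ q • F q, χ, isOpen_ball, mem_ball_self hr0, ?_, ?_, ?_, ?_, ?_, ?_⟩
  · exact fun x hx => hsU (lt_trans (mem_ball.1 hx) (by linarith))
  · rw [contDiff_iff_contDiffAt]
    intro x
    by_cases hx : x ∈ U
    · exact χ.contDiffAt.smul (hF.contDiffAt (hU.mem_nhds hx))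
    · have hx' : x ∉ tsupport (χ : E m → ℝ) := fun h => hx (hts h)
      have h1 : (χ : E m → ℝ) =ᶠ[𝓝 x] 0 := notMem_tsupport_iff_eventuallyEq.1 hx'
      have h2 : (fun q => χ q • F q) =ᶠ[𝓝 x] fun _ => (0 : G) := by
        filter_upwards [h1] with q hq
        rw [hq]
        simp
      exact contDiffAt_const.congr_of_eventuallyEq h2
  · exact χ.hasCompactSupport.smul_right
  · intro q hq
    have : χ q = 1 := χ.one_of_mem_closedBall (ball_subset_closedBall hq)
    show χ q • F q = F q
    rw [this, one_smul]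
  · intro q _
    rfl
  · intro q hq
    have h0 : χ q = 0 := image_eq_zero_of_notMem_tsupport (fun h => hq (hts h))
    show χ q • F q = 0
    rw [h0, zero_smul]

end Pool.Agent.H95.RG
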